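import Pool.Agent.Lib.MP_559647_lc.G56Main
import Pool.Agent.Lib.MP_559647_lc.G56Par

/-!
On graphs whose balls of radius `t` have at most `exp (C t ^ a)` nodes, `a < 1`, a locally
checkable labelling problem with a randomized algorithm in `(log n) ^ d` rounds,
`d a < (1 - a) ^ 2`, has a deterministic algorithm in `O(log* N)` rounds.
-/

namespace Pool.Agent.Variants.MP_559647_lc.GrowthGap

open MeasureTheory Pool.Agent.Lib.MP_559647_lc
open scoped ENNReal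

theorem result (C a d : ℝ) (ha0 : 0 < a) (ha1 : a < 1) (hd0 : 0 ≤ d) (hd : d * a < (1 - a) ^ 2)
    (p : ℕ) : ∃ n₁ : ℕ, ∀ n ≥ n₁, ∀ R : ℕ, (R : ℝ) ≤ Real.log n ^ d → ∃ K : ℕ,
      ∀ (L : Set ℕ) (acc : (N : ℕ) → Inst N → (Fin N → ℕ) → Fin N → Prop), Checker p acc →
      ∀ (M : ℕ), n ≤ M → ∀ (Ω : Type) [MeasurableSpace Ω] (μ : Measure Ω)
        [IsProbabilityMeasure μ] (A : Inst M → (Fin M → Ω) → Fin M → ℕ), LocalWith R A →
        (∀ I v, Measurable fun x => A I x v) →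
        (∀ I : Inst M, I.S.card = n → Growth C a I → (∀ x ∈ I.S, I.inp x ∈ L) →
          (Measure.pi fun _ : Fin M => μ) {x | ¬ ∀ v ∈ I.S, acc M I (A I x) v} ≤
            1 / (n : ℝ≥0∞)) →
        ∀ k N : ℕ, N ≤ tower k → ∃ B : Inst N → Fin N → ℕ, DetLocal (K * (k + 1)) B ∧
          ∀ I : Inst N, Growth C a I → (∀ x ∈ I.S, I.inp x ∈ L) →
            ∀ v ∈ I.S, acc N I (B I) v := by
  obtain ⟨n₁, h⟩ := params C a d ha0 ha1 hd0 hd p
  refine ⟨n₁, fun n hn R hR => ?_⟩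
  obtain ⟨m, s, h0, h1, h2, h3, h4⟩ := h n hn R hR
  exact core h0 h1 h2 h3 h4

end Pool.Agent.Variants.MP_559647_lc.GrowthGap
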