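import Pool.Agent.Lib.MP_559647_lc.M64Main
import Pool.Agent.Lib.MP_559647_lc.Derand

/-!
On graphs without a `K_h` minor the deterministic complexity of a locally checkable problem is at
most `C (R + p + 1) log n log* N`, where `R` is the randomized complexity and `p` the checking
radius.
-/

namespace Pool.Agent.Variants.MP_559647_lc.MinorGap

open MeasureTheory Pool.Agent.Lib.MP_559647_lc
open scoped ENNReal

theorem result (h : ℕ) : ∃ C : ℝ, ∀ n N k R p : ℕ, 2 ≤ n → N ≤ tower k → ∃ T : ℕ,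
    (T : ℝ) ≤ C * (R + p + 1) * Real.log n * (k + 1) ∧
    ∀ (Ω : Type) [MeasurableSpace Ω] (μ : Measure Ω) [IsProbabilityMeasure μ]
      (Cl : Set (Inst N)) (valid : Inst N → (Fin N → ℕ) → Prop)
      (acc : Inst N → (Fin N → ℕ) → Fin N → Prop) (A : Inst N → (Fin N → Ω) → Fin N → ℕ),
      (∀ I ∈ Cl, I.S.card ≤ n ∧ ¬ CliqueMinor I.G h) →
      LocalWith p acc → (∀ I ∈ Cl, ∀ o, valid I o ↔ ∀ v ∈ I.S, acc I o v) →
      LocalWith R A → (∀ I v, Measurable fun a => A I a v) →
      (∀ I ∈ Cl, (Measure.pi fun _ : Fin N => μ) {a | ¬ valid I (A I a)} < 1 / (n : ℝ≥0∞)) →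
      ∃ B : Inst N → Fin N → ℕ, DetLocal T B ∧ ∀ I ∈ Cl, valid I (B I) := by
  classical
  obtain ⟨a, ha⟩ := M64.decomp h
  refine ⟨3 * (14 * a + 7), fun n N k R p hn hN => ?_⟩
  set L := Nat.log 2 n with hL
  set r := R + p with hr
  refine ⟨(14 * a + 7) * (r + 1) * (L + 1) * (k + 1), ?_, ?_⟩
  · have h2 : (2 : ℝ) ≤ n := by exact_mod_cast hn
    have h3 := Real.log_two_gt_d9
    have h4 : Real.log 2 ≤ Real.log n := Real.log_le_log (by norm_num) h2
    have h5 : (L : ℝ) * Real.log 2 ≤ Real.log n := by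
      rw [← Real.log_pow]
      refine Real.log_le_log (by positivity) ?_
      exact_mod_cast Nat.pow_log_le_self 2 (by omega : n ≠ 0)
    have h6 : (L : ℝ) + 1 ≤ 3 * Real.log n := by nlinarith [Nat.cast_nonneg (α := ℝ) L]
    push_cast [hr]
    calc _ ≤ (14 * (a : ℝ) + 7) * (R + p + 1) * (3 * Real.log n) * (k + 1) := by gcongr
      _ = _ := by ring
  intro Ω _ μ _ Cl valid acc A hCl hacc hvalid hA hmeas hfail
  obtain ⟨c, col, b1, b2, b3⟩ := ha N Cl k n (2 * r) hN
    fun I hI => ⟨(hCl I hI).1, fun e => (hCl I hI).2 (M64.CliqueMinor.pred e)⟩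
  rw [← hL] at b1 b2 b3
  let f : Inst N → (Fin N → Ω) → Fin N → ℝ≥0∞ := fun I a u => if acc I (A I a) u then 0 else 1
  have hf : LocalWith r f := by
    intro I J a b v hv hab
    have : acc I (A I a) v = acc J (A J b) v := by
      refine hacc I J _ _ v (hv.mono (by omega)) fun x hx => ?_
      refine hA I J a b x (hv.shift hx (by omega)) fun y hy => hab y ?_
      exact Near.trans' hx hy (by omega)
    simp only [f, this]
  have hAm : ∀ I, Measurable (A I) := fun I => measurable_pi_lambda _ (hmeas I)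
  have hm : ∀ I u, Measurable fun a => f I a u := fun I u =>
    (measurable_of_countable fun o : Fin N → ℕ => if acc I o u then (0 : ℝ≥0∞) else 1).comp (hAm I)
  obtain ⟨w, hw1, hw2⟩ := derand (μ := μ) (C := Cl) (K := 2 * L + 3)
    (rad := fun _ => a * (2 * r + 1)) b1 b2 (fun I hI => (b3 I hI).1) (fun I hI => (b3 I hI).2.1)
    (fun I hI => (b3 I hI).2.2) hf hm
  simp only [Finset.sum_const, Finset.card_range, smul_eq_mul] at hw1
  have hT : r + (a * (k + 1) * (2 * r + 1) * (L + 1) + (2 * L + 3) * (2 * (a * (2 * r + 1)) + 2 * r)) ≤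
      (14 * a + 7) * (r + 1) * (L + 1) * (k + 1) := by
    have e1 : a * (k + 1) * (2 * r + 1) * (L + 1) ≤ 2 * a * (r + 1) * (L + 1) * (k + 1) := by
      calc _ ≤ a * (k + 1) * (2 * (r + 1)) * (L + 1) := by gcongr; omega
        _ = _ := by ring
    have e2 : (2 * L + 3) * (2 * (a * (2 * r + 1)) + 2 * r) ≤ (12 * a + 6) * (r + 1) * (L + 1) := by
      calc _ ≤ (3 * (L + 1)) * (2 * (a * (2 * (r + 1))) + 2 * (r + 1)) := by gcongr <;> omega
        _ = _ := by ring
    have e3 : r ≤ (r + 1) * (L + 1) := by nlinarith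
    have e4 : (12 * a + 7) * (r + 1) * (L + 1) ≤ (12 * a + 7) * (r + 1) * (L + 1) * (k + 1) :=
      Nat.le_mul_of_pos_right _ (by omega)
    nlinarith
  have hB : Loc Cl ((14 * a + 7) * (r + 1) * (L + 1) * (k + 1)) fun I v => A I (w I) v := by
    intro I hI J hJ v hv
    exact hA I J _ _ v (hv.mono (by omega)) fun x hx => hw1.at hI hJ hv hx (by omega)
  obtain ⟨B, hB1, hB2⟩ := hB.extend
  refine ⟨B, fun I J v hv => hB1 I trivial J trivial v hv, fun I hI => ?_⟩
  have hBI : B I = A I (w I) := funext fun v => hB2 I I hI v (sameView_refl _ _ _)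
  rw [hBI, hvalid I hI]
  set π := Measure.pi fun _ : Fin N => μ with hπ
  have hint : ∀ u ∈ I.S, ∫⁻ a, f I a u ∂π ≤ π {a | ¬ valid I (A I a)} := by
    intro u hu
    have hms : MeasurableSet {a | ¬ valid I (A I a)} :=
      hAm I (MeasurableSet.of_discrete (s := {o | ¬ valid I o}))
    rw [← lintegral_indicator_one hms]
    refine lintegral_mono fun a => ?_
    simp only [f]
    split_ifs with ha
    · exact zero_le
    · rw [Set.indicator_of_mem (by
        intro hv
        exact ha ((hvalid I hI _).1 hv u hu))]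
      exact le_rfl
  have htot : ∑ u ∈ I.S, f I (w I) u < 1 := by
    refine lt_of_le_of_lt ((hw2 I hI).trans (Finset.sum_le_card_nsmul _ _ _ hint)) ?_
    rw [nsmul_eq_mul]
    have hc : (I.S.card : ℝ≥0∞) ≤ n := by exact_mod_cast (hCl I hI).1
    refine lt_of_le_of_lt (mul_le_mul_left hc _) ?_
    rw [mul_comm]
    exact ENNReal.mul_lt_of_lt_div (hfail I hI)
  intro v hv
  by_contra hnot
  have := Finset.single_le_sum (f := fun u => f I (w I) u) (fun _ _ => zero_le) hv
  simp only [f, if_neg hnot] at this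
  exact absurd (lt_of_le_of_lt this htot) (lt_irrefl _)

end Pool.Agent.Variants.MP_559647_lc.MinorGap
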