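import Pool.Agent.Lib.MP_559647_lc.H28Anc
import Pool.Agent.Lib.MP_559647_lc.H28Order

/-!
A problem that is checked in one round and solved sequentially with locality one, but needs
`c (log n / log log n) ^ (3 / 2)` rounds in the LOCAL model, even with shared randomness and on a
known graph.
-/

namespace Pool.Agent.Variants.MP_559647_lc.SequentialGap

open MeasureTheory Pool.Agent.Lib.MP_559647_lc
open scoped ENNReal

theorem result : ∃ acc : (N : ℕ) → Inst N → (Fin N → ℕ) → Fin N → Prop,
    Checker 1 acc ∧ (∀ N, SeqLocal 1 (acc N)) ∧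
    ∃ c : ℝ, 0 < c ∧ ∃ n₀ : ℕ, ∀ n ≥ n₀, ∃ G : SimpleGraph (Fin n),
      ∀ (R : ℕ) (Ω : Type) [MeasurableSpace (Fin n → Ω)] (P : Measure (Fin n → Ω))
        [IsProbabilityMeasure P] (A : Inst n → (Fin n → Ω) → Fin n → ℕ), LocalWith R A →
        (∀ I : Inst n, I.S = Finset.univ → I.G = G → (∀ x, I.inp x < 2 * n) →
          P {a | ¬ ∀ v ∈ I.S, acc n I (A I a) v} < 1 / ((n : ℝ≥0∞) + 1)) →
        c * (Real.log n / Real.log (Real.log n)) ^ (3 / 2 : ℝ) ≤ R := by
  classical
  obtain ⟨c, hc, n₀, h⟩ := H28Order.ordering_barrier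
  refine ⟨H28.Anc, H28.checker, H28.seqLocal, c, hc, n₀, fun n hn => ?_⟩
  obtain ⟨G, hG⟩ := h n hn
  refine ⟨G, fun R Ω _ P _ A hA hfail => ?_⟩
  by_contra hR
  push Not at hR
  let I : Option (Fin n) → Inst n := fun w =>
    ⟨Finset.univ, G, fun x => 2 * x + w.elim 0 fun v => if G.edist v x ≤ R then 0 else 1,
      fun _ _ _ => Finset.mem_univ _⟩
  let F : Option (Fin n) → Set (Fin n → Ω) := fun w =>
    {a | ¬ ∀ v ∈ (I w).S, H28.Anc n (I w) (A (I w) a) v}
  have hF : ∀ w, P (F w) < 1 / ((n : ℝ≥0∞) + 1) := by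
    intro w
    refine hfail (I w) rfl rfl fun x => ?_
    have := x.2
    cases w with
    | none => simp only [I, Option.elim]; omega
    | some v => simp only [I, Option.elim]; split_ifs <;> omega
  have hcov : (Set.univ : Set (Fin n → Ω)) ⊆ ⋃ w, F w := by
    intro a _
    by_contra ha
    have hv : ∀ w v, H28.Anc n (I w) (A (I w) a) v := by
      intro w v
      by_contra hw
      exact ha (Set.mem_iUnion.2 ⟨w, fun h' => hw (h' v (Finset.mem_univ v))⟩)
    obtain ⟨u, v, huv, hd⟩ := hG
      (fun x y => G.Adj x y ∧ (H28.dec (A (I none) a x)).1 < (H28.dec (A (I none) a y)).1)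
      (fun _ _ h' => h'.1) (fun x y hxy => by
        rcases lt_or_gt_of_ne ((hv none x).1 y hxy) with h' | h'
        · exact Or.inr ⟨hxy.symm, h'⟩
        · exact Or.inl ⟨hxy, h'⟩)
    have h1 := H28.reach (hv none) huv
    have h2 : A (I none) a v = A (I (some v)) a v := by
      refine hA _ _ a a v ⟨fun _ _ _ => Iff.rfl, fun x hx => ?_⟩ fun _ _ => rfl
      have hx' : G.edist v x ≤ R := hx
      simp [I, hx']
    rw [h2] at h1
    obtain ⟨y, hy⟩ := H28.sound (hv (some v)) v _ h1
    simp only [I, Option.elim] at hy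
    split_ifs at hy with hy'
    · have huy : u = y := Fin.ext (by omega)
      subst huy
      have h3 : G.dist u v ≤ R := by
        rw [SimpleGraph.dist_comm, SimpleGraph.dist]
        exact ENat.toNat_le_of_le_natCast hy'
      have h4 : (G.dist u v : ℝ) ≤ R := by exact_mod_cast h3
      linarith
    · omega
  have h1 : (1 : ℝ≥0∞) ≤ ∑ w, P (F w) := by
    rw [← measure_univ (μ := P)]
    exact (measure_mono hcov).trans (measure_iUnion_fintype_le P F)
  have h2 := ENNReal.sum_lt_sum_of_nonempty (s := Finset.univ) Finset.univ_nonempty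
    fun w _ => hF w
  rw [Finset.sum_const, Finset.card_univ, Fintype.card_option, Fintype.card_fin, nsmul_eq_mul,
    Nat.cast_add, Nat.cast_one, one_div, ENNReal.mul_inv_cancel (by simp) (by simp)] at h2
  exact absurd (h1.trans_lt h2) (lt_irrefl _)

end Pool.Agent.Variants.MP_559647_lc.SequentialGap
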