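import Pool.Agent.Lib.MP_559647_lc.H36Carve
import Pool.Agent.Lib.MP_559647_lc.H36Par
import Pool.Agent.Lib.MP_559647_lc.H36Num

/-!
On a fixed communication graph (the Supported LOCAL model), a randomized algorithm with failure
probability `exp (-(log n) ^ (2 + ε))` can be derandomized with a loss of a factor
`C log n / log log n` in the number of rounds.
-/

namespace Pool.Agent.Variants.MP_559647_lc.SupportedGap

open MeasureTheory Pool.Agent.Lib.MP_559647_lc
open scoped ENNReal

theorem result (c : ℕ) (ε : ℝ) (hε : 0 < ε) : ∃ (C : ℝ) (n₀ : ℕ), ∀ n ≥ n₀, ∀ R p : ℕ, ∃ T : ℕ,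
    (T : ℝ) ≤ C * (R + p + 1) * (Real.log n / Real.log (Real.log n)) ∧
    ∀ (N : ℕ) (S : Finset (Fin N)) (G : SimpleGraph (Fin N)) (Cl : Finset (Inst N))
      (Ω : Type) [MeasurableSpace Ω] (μ : Measure Ω) [IsProbabilityMeasure μ]
      (valid : Inst N → (Fin N → ℕ) → Prop)
      (acc : Inst N → (Fin N → ℕ) → Fin N → Prop) (A : Inst N → (Fin N → Ω) → Fin N → ℕ),
      S.card ≤ n → (∀ I ∈ Cl, I.S = S ∧ I.G = G) → Cl.card ≤ 2 ^ n ^ c →
      LocalWith p acc → (∀ I ∈ Cl, ∀ o, valid I o ↔ ∀ v ∈ I.S, acc I o v) →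
      LocalWith R A → (∀ I v, Measurable fun a => A I a v) →
      (∀ I ∈ Cl, (Measure.pi fun _ : Fin N => μ) {a | ¬ valid I (A I a)} ≤
        ENNReal.ofReal (Real.exp (-(Real.log n) ^ (2 + ε)))) →
      ∃ B : Inst N → Fin N → ℕ, DetLocal T B ∧ ∀ I ∈ Cl, valid I (B I) := by
  classical
  obtain ⟨n₀, hn₀⟩ := H36.params c ε hε
  refine ⟨8 / ε + 7, n₀, fun n hn R p => ?_⟩
  obtain ⟨hn0, lam, h, K, p1, p2, p3, p4⟩ := hn₀ n hn
  refine ⟨(4 * h + 3) * (R + p + 1), ?_, ?_⟩
  · push_cast
    calc _ ≤ (8 / ε + 7) * (Real.log n / Real.log (Real.log n)) * (R + p + 1) :=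
          mul_le_mul_of_nonneg_right p4 (by positivity)
      _ = _ := by ring
  intro N S G Cl Ω _ μ _ valid acc A hS hCl hcard hacc hvalid hA hmeas hfail
  obtain ⟨col, c0, a1, a2, a3⟩ := H36.exists_decomp G (2 * (R + p)) lam h K S (by omega)
    (lt_of_le_of_lt (Nat.mul_le_mul_right _ hS) p2)
  let f : Inst N → (Fin N → Ω) → Fin N → ℝ≥0∞ := fun I a u => if acc I (A I a) u then 0 else 1
  have hf : LocalWith (R + p) f := by
    intro I J a b v hv hab
    have : acc I (A I a) v = acc J (A J b) v := by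
      refine hacc I J _ _ v (hv.mono (by omega)) fun x hx => ?_
      refine hA I J a b x (hv.shift hx (by omega)) fun y hy => hab y ?_
      exact Near.trans' hx hy (by omega)
    simp only [f, this]
  have hAm : ∀ I, Measurable (A I) := fun I => measurable_pi_lambda _ (hmeas I)
  have hm : ∀ I u, Measurable fun a => f I a u := fun I u =>
    (measurable_of_countable fun o : Fin N → ℕ => if acc I o u then (0 : ℝ≥0∞) else 1).comp (hAm I)
  obtain ⟨w, hw1, hw2⟩ := H36.par_derand (μ := μ) (L := n ^ c + 1) hCl a1 a2 a3 hf hm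
    (fun I a v => by simp only [f]; split_ifs <;> simp) hn0 hS
    (lt_of_le_of_lt hcard (Nat.pow_lt_pow_right (by norm_num) (by omega)))
  obtain ⟨o⟩ : Nonempty Ω := nonempty_of_isProbabilityMeasure μ
  let w' : Inst N → Fin N → Ω := fun I x => if x ∈ S then w I x else o
  have hexp : (4 * h + 3) * (R + p + 1) = 2 * (h * (2 * (R + p))) + 3 * (R + p) + 4 * h + 3 := by
    ring
  have hB : Loc (Cl : Set (Inst N)) ((4 * h + 3) * (R + p + 1)) fun I v => A I (w' I) v := by
    intro I hI J hJ v hv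
    refine hA I J _ _ v (hv.mono (by omega)) fun x hx => ?_
    simp only [w']
    split_ifs with hxS
    · exact hw1 I hI J hJ x hxS (hv.shift hx (by omega))
    · rfl
  obtain ⟨B, hB1, hB2⟩ := hB.extend
  refine ⟨B, fun I J v hv => hB1 I trivial J trivial v hv, fun I hI => ?_⟩
  have hBI : B I = A I (w' I) := funext fun v => hB2 I I hI v (sameView_refl _ _ _)
  rw [hBI, hvalid I hI]
  intro v hv
  have hvS : v ∈ S := (hCl I hI).1 ▸ hv
  set π := Measure.pi fun _ : Fin N => μ with hπ
  have hint : ∫⁻ a, f I a v ∂π ≤ π {a | ¬ valid I (A I a)} := by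
    have hms : MeasurableSet {a | ¬ valid I (A I a)} :=
      hAm I (MeasurableSet.of_discrete (s := {o | ¬ valid I o}))
    rw [← lintegral_indicator_one hms]
    refine lintegral_mono fun a => ?_
    simp only [f]
    split_ifs with ha
    · exact zero_le
    · rw [Set.indicator_of_mem (by
        intro hv'
        exact ha ((hvalid I hI _).1 hv' v hv))]
      exact le_rfl
  have hww : f I (w' I) v = f I (w I) v := by
    refine f_dep hf I v _ _ fun x hx => ?_
    have : x ∈ S := (hCl I hI).1 ▸ I.mem_of_reachable hx.reachable hv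
    simp only [w', if_pos this]
  have hlt : f I (w' I) v < 1 := by
    rw [hww]
    refine lt_of_le_of_lt ((hw2 I hI v hvS).trans
      (mul_le_mul_right (hint.trans (hfail I hI)) _)) ?_
    have e : (((n ^ c + 1 : ℕ) : ℝ≥0∞) * (2 * n)) ^ K =
        ENNReal.ofReal ((((n ^ c + 1) * (2 * n) : ℕ) : ℝ) ^ K) := by
      rw [ENNReal.ofReal_pow (Nat.cast_nonneg _), ENNReal.ofReal_natCast]
      push_cast
      rfl
    rw [e, ← ENNReal.ofReal_mul (by positivity)]
    exact ENNReal.ofReal_lt_one.2 p3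
  by_contra hnot
  simp only [f, if_neg hnot] at hlt
  exact lt_irrefl _ hlt

end Pool.Agent.Variants.MP_559647_lc.SupportedGap
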