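import Pool.Agent.Lib.MP_559647_lc.Params
import Pool.Agent.Lib.MP_559647_lc.Derand

/-!
On forests, and on graphs whose girth exceeds twice the running time, the deterministic complexity
of a locally checkable problem is at most `C (R + p + 1) log n / log log n`, where `R` is the
randomized complexity and `p` the checking radius.
-/

namespace Pool.Agent.Variants.MP_559647_lc.TreeGap

open MeasureTheory Pool.Agent.Lib.MP_559647_lc
open scoped ENNReal

theorem result (c : ℕ) : ∃ C : ℝ, ∀ n N R p : ℕ, 3 ≤ n → N ≤ n ^ c → ∃ T : ℕ,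
    (T : ℝ) ≤ C * (R + p + 1) * (Real.log n / Real.log (Real.log n)) ∧
    ∀ (Ω : Type) [MeasurableSpace Ω] (μ : Measure Ω) [IsProbabilityMeasure μ]
      (Cl : Set (Inst N)) (valid : Inst N → (Fin N → ℕ) → Prop)
      (acc : Inst N → (Fin N → ℕ) → Fin N → Prop) (A : Inst N → (Fin N → Ω) → Fin N → ℕ),
      (∀ I ∈ Cl, I.S.card ≤ n ∧ ((2 * T : ℕ) : ℕ∞) < I.G.egirth) →
      LocalWith p acc → (∀ I ∈ Cl, ∀ o, valid I o ↔ ∀ v ∈ I.S, acc I o v) →
      LocalWith R A → (∀ I v, Measurable fun a => A I a v) →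
      (∀ I ∈ Cl, (Measure.pi fun _ : Fin N => μ) {a | ¬ valid I (A I a)} < 1 / (n : ℝ≥0∞)) →
      ∃ B : Inst N → Fin N → ℕ, DetLocal T B ∧ ∀ I ∈ Cl, valid I (B I) := by
  classical
  obtain ⟨C, hC⟩ := params c
  refine ⟨4 * C, fun n N R p hn hN => ?_⟩
  obtain ⟨k, L, hk, hL, hb⟩ := hC n N (by omega) hN
  set i := Nat.log 2 (R + p + 1) + 1 with hi
  set h := scale i with hh
  have h1 : R + p + 1 ≤ h := by
    have h3 := scale_succ_eq i
    have h4 : R + p + 1 < 2 ^ i := Nat.lt_pow_succ_log_self (by norm_num) (R + p + 1)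
    omega
  have h2 : h ≤ 2 * (R + p + 1) := by
    have h3 := scale_succ_eq i
    have h4 := Nat.pow_log_le_self 2 (show R + p + 1 ≠ 0 by omega)
    have h5 : 2 ^ i = 2 ^ Nat.log 2 (R + p + 1) * 2 := pow_succ _ _
    omega
  set K := numCol N k with hK
  refine ⟨h * (10 * K + 64 * L + 33), ?_, ?_⟩
  · have := real_bound (T := h * (10 * K + 64 * L + 33)) (E := 2 * (R + p + 1) * C) hn (by
      rw [mul_assoc, mul_assoc]
      exact Nat.mul_le_mul h2 hb)
    refine this.trans (le_of_eq ?_)
    push_cast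
    ring
  intro Ω _ μ _ Cl valid acc A hCl hacc hvalid hA hmeas hfail
  obtain ⟨c0, col0, a1, a2, a3⟩ := forest_cluster (N := N) (i := i) (by omega : 1 ≤ n) hk hL
    (by omega)
  rw [← hh, ← hK] at a1 a2 a3
  obtain ⟨c1, col1, b1, b2, b3⟩ := girth_cluster a1 a2 a3
  have hexp : h * (10 * K + 64 * L + 33) = 10 * (K * h) + 64 * (h * L) + 33 * h := by ring
  have hexp2 : (2 * K + 23) * h = 2 * (K * h) + 23 * h := by ring
  have hcl : ∀ I ∈ Cl, IsClustering I (c1 I) (col1 I) K h (16 * (h * L) + 1) := by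
    intro I hI
    refine b3 I (hCl I hI).1 (lt_of_le_of_lt ?_ (hCl I hI).2)
    exact_mod_cast (by omega)
  let f : Inst N → (Fin N → Ω) → Fin N → ℝ≥0∞ := fun I a u => if acc I (A I a) u then 0 else 1
  have hf : LocalWith h f := by
    intro I J a b v hv hab
    have : acc I (A I a) v = acc J (A J b) v := by
      refine hacc I J _ _ v (hv.mono (by omega)) fun x hx => ?_
      refine hA I J a b x (hv.shift hx (by omega)) fun y hy => hab y ?_
      exact Near.trans' hx hy (by omega)
    simp only [f, this]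
  have hAm : ∀ I, Measurable (A I) := fun I => measurable_pi_lambda _ (hmeas I)
  have hm : ∀ I u, Measurable fun a => f I a u := fun I u =>
    (measurable_of_countable fun o : Fin N → ℕ => if acc I o u then (0 : ℝ≥0∞) else 1).comp (hAm I)
  obtain ⟨w, hw1, hw2⟩ := derand (μ := μ) (C := Cl) (K := K + 1)
    (rad := fun j => if j < K then 3 * h else 16 * (h * L) + 1)
    (fun I _ J _ v hv => b1 I trivial J trivial v hv)
    (fun I _ J _ v hv => b2 I trivial J trivial v hv)
    (fun I hI => (hcl I hI).1) (fun I hI => (hcl I hI).2.1) (fun I hI => (hcl I hI).2.2) hf hm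
  have hsum : ∑ j ∈ Finset.range (K + 1),
      (2 * (if j < K then 3 * h else 16 * (h * L) + 1) + 2 * h) =
      8 * (K * h) + (2 * (16 * (h * L) + 1) + 2 * h) := by
    rw [Finset.sum_range_succ, if_neg (lt_irrefl K),
      Finset.sum_congr rfl (g := fun _ => 8 * h) fun j hj => by
        rw [if_pos (Finset.mem_range.1 hj)]; ring]
    simp only [Finset.sum_const, Finset.card_range, smul_eq_mul]
    ring
  rw [hsum] at hw1
  have hB : Loc Cl (h * (10 * K + 64 * L + 33)) fun I v => A I (w I) v := by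
    intro I hI J hJ v hv
    exact hA I J _ _ v (hv.mono (by omega)) fun x hx => hw1.at hI hJ hv hx (by omega)
  obtain ⟨B, hB1, hB2⟩ := hB.extend
  refine ⟨B, fun I J v hv => hB1 I trivial J trivial v hv, fun I hI => ?_⟩
  have hBI : B I = A I (w I) := funext fun v => hB2 I I hI v (sameView_refl _ _ _)
  rw [hBI, hvalid I hI]
  set π := Measure.pi fun _ : Fin N => μ with hπ
  have hint : ∀ u ∈ I.S, ∫⁻ a, f I a u ∂π ≤ π {a | ¬ valid I (A I a)} := by
    intro u hu
    have hms : MeasurableSet {a | ¬ valid I (A I a)} :=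
      hAm I (MeasurableSet.of_discrete (s := {o | ¬ valid I o}))
    rw [← lintegral_indicator_one hms]
    refine lintegral_mono fun a => ?_
    simp only [f]
    split_ifs with ha
    · exact zero_le
    · rw [Set.indicator_of_mem (by
        intro hv
        exact ha ((hvalid I hI _).1 hv u hu))]
      exact le_rfl
  have htot : ∑ u ∈ I.S, f I (w I) u < 1 := by
    refine lt_of_le_of_lt ((hw2 I hI).trans (Finset.sum_le_card_nsmul _ _ _ hint)) ?_
    rw [nsmul_eq_mul]
    have hc : (I.S.card : ℝ≥0∞) ≤ n := by exact_mod_cast (hCl I hI).1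
    refine lt_of_le_of_lt (mul_le_mul_left hc _) ?_
    rw [mul_comm]
    exact ENNReal.mul_lt_of_lt_div (hfail I hI)
  intro v hv
  by_contra hnot
  have := Finset.single_le_sum (f := fun u => f I (w I) u) (fun _ _ => zero_le) hv
  simp only [f, if_neg hnot] at this
  exact absurd (lt_of_le_of_lt this htot) (lt_irrefl _)

end Pool.Agent.Variants.MP_559647_lc.TreeGap
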