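import Pool.Agent.Lib.MP_559647_lc.V55Main
import Pool.Agent.Lib.MP_559647_lc.V55Par

/-!
A locally checkable labelling problem on graphs of bounded degree that has a randomized probe
algorithm with `t` probes per query, `t log t = o(log n)`, has a deterministic algorithm with
`O(log* N)` connected probes per query, which is also a distributed algorithm in as many rounds.
-/

namespace Pool.Agent.Variants.MP_559647_lc.VolumeGap

open MeasureTheory Pool.Agent.Lib.MP_559647_lc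
open scoped ENNReal

theorem result (Δ p l : ℕ) : ∃ C : ℕ, ∀ n t : ℕ, (t + 2) ^ (C * (t + 1)) ≤ n → ∃ K : ℕ,
    ∀ (L : Finset ℕ), L.card ≤ l →
      ∀ (acc : (N : ℕ) → Inst N → (Fin N → ℕ) → Fin N → Prop), Checker p acc →
      ∀ (M : ℕ), n ≤ M → ∀ (Ω : Type) [MeasurableSpace Ω] (μ : Measure Ω)
        [IsProbabilityMeasure μ] (A : Ω → Inst M → Fin M → ℕ), (∀ ω, Probes t (A ω)) →
        (∀ I v, Measurable fun ω => A ω I v) →
        (∀ I : Inst M, I.S.card = n → Deg Δ I → (∀ x ∈ I.S, I.inp x ∈ L) →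
          μ {ω | ¬ ∀ v ∈ I.S, acc M I (A ω I) v} ≤ 1 / (n : ℝ≥0∞)) →
        ∀ k N : ℕ, N ≤ tower k → ∃ B : Inst N → Fin N → ℕ, Volume (K * (k + 1)) B ∧
          DetLocal (K * (k + 1)) B ∧
          ∀ I : Inst N, Deg Δ I → (∀ x ∈ I.S, I.inp x ∈ L) → ∀ v ∈ I.S, acc N I (B I) v := by
  obtain ⟨C, h⟩ := params55 Δ p l
  refine ⟨C, fun n t hn => ?_⟩
  obtain ⟨e, h1, h2, h3⟩ := h t
  exact core55 h1 h2 (h3.trans hn)

end Pool.Agent.Variants.MP_559647_lc.VolumeGap
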